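import Pool.Agent.H60.D5b
import Pool.Prelude.Def_F_1b46b985

namespace Pool.Agent.Results.MP_0b7501_nt.Linear

open N140ae710 Pool.Agent.H60.D6

theorem aux : ∀ k : ℕ, 4 ≤ k → k ≤ 6 → ∃ c : ℝ, 0 < c ∧ ∃ N : ℕ, ∀ n : ℕ, N ≤ n →
    c * (n : ℝ) ≤ (countD k n : ℝ) ∧ (countD k n : ℝ) ≤ n := by
  intro k h1 h2
  have up : ∀ n, (countD k n : ℝ) ≤ n := fun n => by
    classical
    have : countD k n ≤ n := (Finset.card_filter_le _ _).trans (by simp)
    exact_mod_cast this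
  suffices h : ∃ c : ℝ, 0 < c ∧ ∃ N : ℕ, ∀ n : ℕ, N ≤ n → c * (n : ℝ) ≤ (countD k n : ℝ) by
    obtain ⟨c, hc, N, h⟩ := h
    exact ⟨c, hc, N, fun n hn => ⟨h n hn, up n⟩⟩
  interval_cases k
  · refine unscale four_pos (fun N n hn => ?_) main4
    unfold countD
    apply Finset.card_le_card
    intro m hm
    simp only [Finset.mem_filter, Finset.mem_Ioc, Finset.mem_Icc] at hm ⊢
    obtain ⟨h1, ⟨u, rfl, h2⟩, h4⟩ := hm
    refine ⟨by omega, by norm_num, four h2, ?_⟩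
    rintro j - hj ⟨s, h5, h6, h7, h8⟩
    exact h4 (to_rep3 (by omega) h6 h7 h8)
  · refine unscale two_pos (fun N n hn => ?_) main5
    unfold countD
    apply Finset.card_le_card
    intro m hm
    simp only [Finset.mem_filter, Finset.mem_Ioc, Finset.mem_Icc] at hm ⊢
    obtain ⟨h1, ⟨u, rfl, h2⟩, h4⟩ := hm
    refine ⟨by omega, by norm_num, five h2, ?_⟩
    rintro j - hj ⟨s, h5, h6, h7, h8⟩
    exact h4 (to_rep4 (by omega) h6 h7 h8)
  · refine unscale one_pos (fun N n hn => ?_) main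
    unfold countD
    apply Finset.card_le_card
    intro m hm
    simp only [Finset.mem_filter, Finset.mem_Ioc, Finset.mem_Icc] at hm ⊢
    obtain ⟨h1, ⟨k, p, rfl, hp, h2, h3⟩, h4⟩ := hm
    refine ⟨by omega, by norm_num, six h2 h3, ?_⟩
    rintro j - hj ⟨s, h5, h6, h7, h8⟩
    exact h4 (to_rep (by omega) h6 h7 h8)

theorem result : ∀ k : ℕ, 5 ≤ k → k ≤ 6 → ∃ c : ℝ, 0 < c ∧ ∃ N : ℕ, ∀ n : ℕ, N ≤ n →
    c * (n : ℝ) ≤ (countD k n : ℝ) ∧ (countD k n : ℝ) ≤ n :=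
  fun k h1 h2 => aux k (by omega) h2

end Pool.Agent.Results.MP_0b7501_nt.Linear
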